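import Pool.Agent.X252.GCN

/-!
# Finite groups of autoequivalences and the noncommutative conjecture of type `C⁺`

`C` is the category of smooth proper dg categories over a field, with morphisms `K₀(A^op ⊗ B)`, and `R`
a realisation in super vector spaces over a field of characteristic zero. Let `G` be a finite group
with a homomorphism `u` to the monoid `End A = K₀(A^op ⊗ A)`, for example a finite group of
autoequivalences of `A` up to isomorphism of functors. For a subgroup `H` of `G` we consider the
conjecture `C⁺` for the part of `A` fixed by `H`: some multiple of `(∑_{h ∈ H} R(u h)) π₊` is the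
operator of an element of `K₀(A^op ⊗ A)`. The elements `x` of the rational group ring for which
`x π₊` is algebraic are a two-sided ideal, which contains the annihilators of the even and the odd part
of `R A`. We deduce

* `π₊` is algebraic if no irreducible rational representation of `G` occurs both in the even and
  in the odd part of `R A`, and in general only the common ones matter;
* for an involution `c` the projector `π₊` is algebraic if and only if it is for the parts fixed by
  `c` and by `[G,c]`, and if `c` is contained in a nonabelian simple subgroup, if and only if it is for
  the part fixed by `c`;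
* if a subgroup is partitioned into subgroups `D_j`, at least two, then `π₊` is algebraic if and only
  if it is for all the parts fixed by the `D_j`;
* if `π₊` is not algebraic, but it is for the parts fixed by the subgroups of prime order, then a
  fixed point free irreducible rational representation of `G` occurs both in the even and in the
  odd part.
-/

set_option autoImplicit false

open CategoryTheory MonoidalCategory

namespace Pool.Agent.Results.MP_8f22fa_ag.FiniteGroupsOfAutoequivalences

open Pool.Agent.Y112.SR Pool.Agent.X279.NK Pool.Agent.X252.GC Pool.Agent.X252.GCN
  Pool.Agent.X310.Mu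

universe v u w

theorem result {C : Type u} [Category.{v} C] [Preadditive C] [MonoidalCategory C]
    [SymmetricCategory C] {K : Type w} [Field K] [CharZero K] (R : SuperRealisation C K) {A : C}
    {G : Type} [Group G] [Finite G] (u : G →* End A) :
    (NoCommonRep (gAct R u) (evenPart (parity R A)) (oddPart (parity R A)) → EvenAlg R A) ∧
    (∀ (H : Subgroup G) (ι : Type) (D : ι → Subgroup G),
      DominatedRep (gAct R u) (evenPart (parity R A)) (oddPart (parity R A)) H D →
      (∀ j, FixedEvenAlg R u (D j)) → FixedEvenAlg R u H) ∧
    (∀ c : G, c * c = 1 → (EvenAlg R A ↔
      FixedEvenAlg R u (Subgroup.zpowers c) ∧ FixedEvenAlg R u (comms c))) ∧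
    (∀ c : G, InSimple c → c ≠ 1 → c * c = 1 →
      (EvenAlg R A ↔ FixedEvenAlg R u (Subgroup.zpowers c))) ∧
    (∀ (ι : Type) (D : ι → Subgroup G) (S : Subgroup G), Partitions S D →
      (EvenAlg R A ↔ ∀ j, FixedEvenAlg R u (D j))) ∧
    (¬ EvenAlg R A → (∀ P : Subgroup G, (Nat.card P).Prime → FixedEvenAlg R u P) →
      CommonFreeRep (gAct R u) (evenPart (parity R A)) (oddPart (parity R A)) ∧
        CyclicSubgroups G) :=
  nc_main R u

end Pool.Agent.Results.MP_8f22fa_ag.FiniteGroupsOfAutoequivalences
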