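import Pool.Agent.X279.NK.Two

/-!
# The noncommutative conjecture of type `C⁺` does not depend on the realisation

`C` is the category of smooth proper dg categories over a field, whose morphisms are the elements of
`K₀(A^op ⊗ B)`; the endomorphisms of the unit object are the integers. `R` and `R'` are two
realisations of `C` in super vector spaces over fields of characteristic zero, for example
topological periodic cyclic homology (with `p` inverted) and the `ℓ`-adic realisation. If the even
Künneth projector of `A` is algebraic for `R` then the even and the odd part of `R A` have at most the
dimension of the even and of the odd part of `R' A`, and the even Künneth projector of `A` is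
algebraic for `R'` if and only if the dimensions agree.
-/

set_option autoImplicit false
set_option linter.unusedSectionVars false

open CategoryTheory MonoidalCategory

namespace Pool.Agent.Results.MP_8f22fa_ag.IndependenceOfRealisation

open Pool.Agent.Y112.SR Pool.Agent.X279.NK

universe v u w w'

section

variable {C : Type u} [Category.{v} C] [Preadditive C] [MonoidalCategory C] [SymmetricCategory C]
  {K : Type w} [Field K] (R : SuperRealisation C K)

/-- The conjecture for `A` and the realisation `R`, with rational coefficients: the even Künneth
projector is the operator of `m⁻¹ x` for a positive integer `m` and an element `x` of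
`K₀(A^op ⊗ A)`. -/
def EvenProjectorAlgebraic (A : C) : Prop :=
  ∃ m : ℕ, m ≠ 0 ∧ ∃ x : A ⟶ A, actOn R A x = (m : K) • evenProj (parity R A)

/-- The dimension of the even part of the realisation. -/
noncomputable def evenDim (A : C) : ℕ := Module.finrank K (evenPart (parity R A))

/-- The dimension of the odd part of the realisation. -/
noncomputable def oddDim (A : C) : ℕ := Module.finrank K (oddPart (parity R A))

theorem algebraic_iff [RightRigidCategory C] [CharZero K] (hu : IntegralUnit C) (A : C) :
    EvenProjectorAlgebraic R A ↔
      evenProj (parity R A) ∈ Submodule.span K (Set.range (actOn R A)) := by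
  constructor
  · rintro ⟨m, hm, x, hx⟩
    have hm' : (m : K) ≠ 0 := by exact_mod_cast hm
    have e : evenProj (parity R A) = (m : K)⁻¹ • actOn R A x := by
      rw [hx, smul_smul, inv_mul_cancel₀ hm', one_smul]
    rw [e]
    exact Submodule.smul_mem _ _ (Submodule.subset_span ⟨x, rfl⟩)
  · intro h
    obtain ⟨m, hm, x, hx⟩ := exists_int (evenRing R hu A) h
    exact ⟨m, hm, x, hx⟩

end

theorem result {C : Type u} [Category.{v} C] [Preadditive C] [MonoidalCategory C]
    [SymmetricCategory C] [RightRigidCategory C] (hu : IntegralUnit C)
    {K : Type w} [Field K] [CharZero K] (R : SuperRealisation C K)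
    {K' : Type w'} [Field K'] [CharZero K'] (R' : SuperRealisation C K')
    (A : C) (h : EvenProjectorAlgebraic R A) :
    evenDim R A ≤ evenDim R' A ∧ oddDim R A ≤ oddDim R' A ∧
      (EvenProjectorAlgebraic R' A ↔ evenDim R A = evenDim R' A) := by
  rw [algebraic_iff R' hu A]
  rw [algebraic_iff R hu A] at h
  exact independence (sameTraces R R' hu A) h

end Pool.Agent.Results.MP_8f22fa_ag.IndependenceOfRealisation
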